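import Mathlib

/-! # Idempotent binary maps compatible with a family of subsets

`H` is a family of subsets (blocks) of the finite set `E`. -/

namespace Pool.Agent.Helper10.OneBlock

variable {E : Type*}

/-- two points in a common block which does not contain `z` -/
def R (H : Set (Set E)) (z x y : E) : Prop := ∃ B ∈ H, z ∉ B ∧ x ∈ B ∧ y ∈ B

/-- the component of `a` in the hypergraph of the blocks which do not contain `z` -/
def C (H : Set (Set E)) (z a : E) : Set E := {y | Relation.ReflTransGen (R H z) a y}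

/-- two points in a common block which does not contain all of `N` -/
def S (H : Set (Set E)) (N : Set E) (x y : E) : Prop := ∃ B ∈ H, ¬ N ⊆ B ∧ x ∈ B ∧ y ∈ B

/-- the criterion -/
def Crit (H : Set (Set E)) : Prop :=
  ∀ z a : E, z ≠ a → ∀ x y, Relation.ReflTransGen (S H (insert z (C H z a))) x y

/-- `f` preserves the equivalence relation with classes `B` and singletons -/
def Pres (f : E → E → E) (B : Set E) : Prop :=
  (∀ x x' y, x ∈ B → x' ∈ B → f x y = f x' y ∨ (f x y ∈ B ∧ f x' y ∈ B)) ∧
    ∀ x y y', y ∈ B → y' ∈ B → f x y = f x y' ∨ (f x y ∈ B ∧ f x y' ∈ B)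

variable {H : Set (Set E)}

theorem R_symm {z x y : E} (h : R H z x y) : R H z y x := by
  obtain ⟨B, hB, hz, hx, hy⟩ := h
  exact ⟨B, hB, hz, hy, hx⟩

theorem C_self (z a : E) : a ∈ C H z a := Relation.ReflTransGen.refl

theorem C_symm {z a y : E} (h : y ∈ C H z a) : a ∈ C H z y := by
  induction h with
  | refl => exact Relation.ReflTransGen.refl
  | tail _ huv ih => exact Relation.ReflTransGen.head (R_symm huv) ih

theorem C_trans {z a b c : E} (h : b ∈ C H z a) (h' : c ∈ C H z b) : c ∈ C H z a :=
  Relation.ReflTransGen.trans h h'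

theorem C_eq {z a b : E} (h : b ∈ C H z a) : C H z b = C H z a := by
  ext c
  exact ⟨fun h' => C_trans h h', fun h' => C_trans (C_symm h) h'⟩

theorem C_block {z a y : E} {B : Set E} (h : y ∈ C H z a) (hB : B ∈ H) (hz : z ∉ B) (hy : y ∈ B) :
    B ⊆ C H z a := fun _ hv => Relation.ReflTransGen.tail h ⟨B, hB, hz, hy, hv⟩

theorem not_mem_C {z a : E} (h : z ≠ a) : z ∉ C H z a := by
  intro hz
  rcases Relation.ReflTransGen.cases_tail hz with h1 | ⟨u, -, B, -, h2, -, h3⟩
  · exact h h1
  · exact h2 h3

theorem Pres.flip {f : E → E → E} {B : Set E} (h : Pres f B) : Pres (fun x y => f y x) B :=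
  ⟨fun x x' y hx hx' => h.2 y x x' hx hx', fun x y y' hy hy' => h.1 y y' x hy hy'⟩

theorem collapse {f : E → E → E} (hf : ∀ B ∈ H, Pres f B) {x y z : E} (h : f x y = z) :
    ∀ y' ∈ C H z y, f x y' = z := by
  intro y' hy'
  induction hy' with
  | refl => exact h
  | @tail u v _ huv ih =>
    obtain ⟨B, hB, hz, hu, hv⟩ := huv
    rcases (hf B hB).2 x u v hu hv with h1 | ⟨h1, -⟩
    · rw [← h1, ih]
    · rw [ih] at h1
      exact absurd h1 hz

/-- every component has at least two points -/
theorem exists_ne (hC : Crit H) {z a : E} (hz : z ≠ a) : ∃ b ∈ C H z a, b ≠ a := by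
  by_contra hcon
  push Not at hcon
  have key : ∀ y, Relation.ReflTransGen (S H (insert z (C H z a))) a y → y = a := by
    intro y hy
    induction hy with
    | refl => rfl
    | @tail u v _ huv ih =>
      obtain ⟨B, hB, hN, hu, hv⟩ := huv
      subst ih
      have hzB : z ∉ B := by
        intro hzB
        apply hN
        intro t ht
        rcases ht with rfl | ht
        · exact hzB
        · rw [hcon t ht]
          exact hu
      exact hcon v (C_block (C_self z u) hB hzB hu hv)
  exact hz (key z (hC z a hz a z))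

/-- `K` is a minimal component -/
structure MinComp (H : Set (Set E)) (z a : E) : Prop where
  ne : z ≠ a
  min : ∀ z' a', z' ≠ a' → C H z' a' ⊆ C H z a → C H z a ⊆ C H z' a'

theorem exists_minComp [Finite E] {z a : E} (hz : z ≠ a) :
    ∃ z' a', MinComp H z' a' ∧ C H z' a' ⊆ C H z a := by
  let T : Set (Set E) := {s | s ⊆ C H z a ∧ ∃ z' a', z' ≠ a' ∧ s = C H z' a'}
  have hT : T.Nonempty := ⟨C H z a, subset_rfl, z, a, hz, rfl⟩
  obtain ⟨m, hm⟩ := (Set.toFinite T).exists_minimal hT
  obtain ⟨⟨hm1, z', a', hza, rfl⟩, hm2⟩ := hm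
  refine ⟨z', a', ⟨hza, fun z'' a'' h1 h2 => ?_⟩, hm1⟩
  exact hm2 ⟨h2.trans hm1, z'', a'', h1, rfl⟩ h2

section min

variable {z a : E} (hm : MinComp H z a)

include hm

theorem MinComp.z_mem {u k : E} (hu : u ∈ C H z a) (hk : k ∈ C H z a) (huk : u ≠ k) :
    z ∈ C H u k := by
  by_contra hz
  have hsub : ∀ y ∈ C H u k, y ∈ C H z a := by
    intro y hy
    induction hy with
    | refl => exact hk
    | @tail y v hy hyv ih =>
      obtain ⟨B, hB, hu', hyB, hvB⟩ := hyv
      have hzB : z ∉ B := fun hzB => hz (C_block (z := u) (a := k) hy hB hu' hyB hzB)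
      exact C_block ih hB hzB hyB hvB
  exact not_mem_C huk (hm.min u k huk hsub hu)

omit hm in
theorem sub_C {w k : E} (hk : k ∈ C H z a) (hw : w ∉ C H z a) : C H z a ⊆ C H w k := by
  rw [← C_eq hk]
  rw [← C_eq hk] at hw
  intro y hy
  induction hy with
  | refl => exact C_self w k
  | @tail y v hy hyv ih =>
    obtain ⟨B, hB, hz', hyB, hvB⟩ := hyv
    have hwB : w ∉ B := fun hwB => hw (C_block (z := z) (a := k) hy hB hz' hyB hwB)
    exact C_block ih hB hwB hyB hvB

/-- a row is constant or the identity on a minimal component -/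
theorem MinComp.row {f : E → E → E} (hf : ∀ B ∈ H, Pres f B) (x : E) :
    (∀ k ∈ C H z a, f x k = k) ∨ ∃ c, ∀ k ∈ C H z a, f x k = c := by
  by_cases hid : ∀ k ∈ C H z a, f x k = k
  · exact Or.inl hid
  · right
    push Not at hid
    obtain ⟨k, hk, hne⟩ := hid
    -- values outside
    have hout : ∀ k ∈ C H z a, f x k ∉ C H z a → ∀ k' ∈ C H z a, f x k' = f x k := by
      intro k hk hw k' hk'
      exact collapse hf (rfl : f x k = f x k) k' (sub_C hk hw hk')
    -- values inside, different from the argument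
    have hin : ∀ k ∈ C H z a, f x k ∈ C H z a → f x k ≠ k → f x z = f x k := by
      intro k hk hw hne
      exact collapse hf (rfl : f x k = f x k) z (hm.z_mem hw hk hne)
    by_cases hw : f x k ∈ C H z a
    · refine ⟨f x k, fun k' hk' => ?_⟩
      by_cases hk'w : k' = f x k
      · subst hk'w
        by_contra hne'
        by_cases hw' : f x (f x k) ∈ C H z a
        · have h1 := hin k hk hw hne
          have h2 := hin (f x k) hw hw' hne'
          exact hne' (h2.symm.trans h1)
        · have h1 := hout (f x k) hw hw' k hk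
          exact hw' (h1 ▸ hw)
      · have h1 : z ∈ C H (f x k) k := hm.z_mem hw hk hne
        have h2 : z ∈ C H (f x k) k' := hm.z_mem hw hk' (Ne.symm hk'w)
        exact collapse hf (rfl : f x k = f x k) k' (C_trans h1 (C_symm h2))
    · exact ⟨f x k, hout k hk hw⟩

/-- all rows are constant, or all rows are the identity on a minimal component -/
theorem MinComp.rows {f : E → E → E} (hC : Crit H) (hf : ∀ B ∈ H, Pres f B) :
    (∀ x, ∀ k ∈ C H z a, f x k = k) ∨ ∀ x, ∃ c, ∀ k ∈ C H z a, f x k = c := by
  obtain ⟨b, hb, hba⟩ := exists_ne hC hm.ne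
  -- not both
  have hnot : ∀ x, (∀ k ∈ C H z a, f x k = k) → ¬ ∃ c, ∀ k ∈ C H z a, f x k = c := by
    rintro x h1 ⟨c, h2⟩
    apply hba
    rw [← h1 b hb, h2 b hb, ← h2 a (C_self z a), h1 a (C_self z a)]
  -- crossing blocks contain the component
  have hcross : ∀ B ∈ H, ∀ x₁ ∈ B, ∀ x₂ ∈ B, (∃ c, ∀ k ∈ C H z a, f x₁ k = c) →
      (∀ k ∈ C H z a, f x₂ k = k) → C H z a ⊆ B := by
    rintro B hB x₁ h1 x₂ h2 ⟨c, hc⟩ hid
    have key : ∀ k ∈ C H z a, k ≠ c → c ∈ B ∧ k ∈ B := by
      intro k hk hkc
      have := (hf B hB).1 x₁ x₂ k h1 h2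
      rw [hc k hk, hid k hk] at this
      rcases this with h | h
      · exact absurd h.symm hkc
      · exact h
    intro k hk
    by_cases hkc : k = c
    · subst hkc
      by_cases hak : a = k
      · subst hak
        exact (key b hb hba).1
      · exact (key a (C_self z a) hak).1
    · exact (key k hk hkc).2
  by_contra hcon
  push Not at hcon
  obtain ⟨⟨x₁, k₁, hk₁, hne₁⟩, ⟨x₂, h₂⟩⟩ := hcon
  have hx₁ : ¬ ∀ k ∈ C H z a, f x₁ k = k := fun h => hne₁ (h k₁ hk₁)
  have hx₂ : ∀ k ∈ C H z a, f x₂ k = k := by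
    rcases hm.row hf x₂ with h | ⟨c, hc⟩
    · exact h
    · obtain ⟨k, hk, hkc⟩ := h₂ c
      exact absurd (hc k hk) hkc
  -- a crossing block in the connected hypergraph
  have hblock : ∃ B ∈ H, ¬ insert z (C H z a) ⊆ B ∧ ∃ u ∈ B, ∃ v ∈ B,
      (∀ k ∈ C H z a, f u k = k) ∧ ¬ ∀ k ∈ C H z a, f v k = k := by
    by_contra hno
    push Not at hno
    have : ∀ y, Relation.ReflTransGen (S H (insert z (C H z a))) x₂ y →
        ∀ k ∈ C H z a, f y k = k := by
      intro y hy
      induction hy with
      | refl => exact hx₂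
      | @tail u v _ huv ih =>
        obtain ⟨B, hB, hN, hu, hv⟩ := huv
        exact hno B hB hN u hu v hv ih
    exact hx₁ (this x₁ (hC z a hm.ne x₂ x₁))
  obtain ⟨B, hB, hN, u, hu, v, hv, hfu, hfv⟩ := hblock
  have hfv' : ∃ c, ∀ k ∈ C H z a, f v k = c := (hm.row hf v).resolve_left hfv
  have hKB := hcross B hB v hv u hu hfv' hfu
  have hzB : z ∉ B := fun hzB => hN (Set.insert_subset hzB hKB)
  have hBK : B ⊆ C H z a := C_block (C_self z a) hB hzB (hKB (C_self z a))
  have huK := hBK hu
  have hvK := hBK hv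
  have huv : u ≠ v := by
    rintro rfl
    exact hfv hfu
  -- walk from `u` to `z` avoiding `v`
  have hz1 : ∀ k ∈ C H z a, f z k = k := by
    have : ∀ y ∈ C H v u, ∀ k ∈ C H z a, f y k = k := by
      intro y hy
      induction hy with
      | refl => exact hfu
      | @tail y w _ hyw ih =>
        obtain ⟨D, hD, hvD, hyD, hwD⟩ := hyw
        rcases hm.row hf w with h | h
        · exact h
        · exact absurd (hcross D hD w hwD y hyD h ih hvK) hvD
    exact this z (hm.z_mem hvK huK huv.symm)
  have hz2 : ∃ c, ∀ k ∈ C H z a, f z k = c := by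
    have : ∀ y ∈ C H u v, ∃ c, ∀ k ∈ C H z a, f y k = c := by
      intro y hy
      induction hy with
      | refl => exact hfv'
      | @tail y w _ hyw ih =>
        obtain ⟨D, hD, hvD, hyD, hwD⟩ := hyw
        rcases hm.row hf w with h | h
        · exact absurd (hcross D hD y hyD w hwD ih h huK) hvD
        · exact h
    exact this z (hm.z_mem huK hvK huv)
  exact hnot z hz1 hz2

/-- the two types of a minimal component -/
theorem MinComp.type {f : E → E → E} (hC : Crit H) (hf : ∀ B ∈ H, Pres f B)
    (hid : ∀ x, f x x = x) :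
    (∀ x, ∀ k ∈ C H z a, f x k = k) ∨ ∀ k ∈ C H z a, ∀ y, f k y = k := by
  rcases hm.rows hC hf with h | h
  · exact Or.inl h
  · right
    have hf' : ∀ B ∈ H, Pres (fun x y => f y x) B := fun B hB => (hf B hB).flip
    rcases hm.rows hC hf' with h' | h'
    · exact fun k hk y => h' y k hk
    · exfalso
      obtain ⟨b, hb, hba⟩ := exists_ne hC hm.ne
      obtain ⟨c, hc⟩ := h a
      have h1 : f a b = a := by
        rw [hc b hb, ← hc a (C_self z a), hid]
      obtain ⟨d, hd⟩ := h' b
      have h2 : f a b = b := by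
        have e1 : f a b = d := hd a (C_self z a)
        have e2 : f b b = d := hd b hb
        rw [e1, ← e2, hid]
      exact hba (h2.symm.trans h1)

end min

theorem core [Finite E] [Nontrivial E] (hC : Crit H) {f : E → E → E} (hf : ∀ B ∈ H, Pres f B)
    (hid : ∀ x, f x x = x) : (∀ x y, f x y = x) ∨ ∀ x y, f x y = y := by
  obtain ⟨z₀, a₀, hne₀⟩ := exists_pair_ne E
  obtain ⟨z, a, hm, -⟩ := exists_minComp (H := H) hne₀
  have hf' : ∀ B ∈ H, Pres (fun x y => f y x) B := fun B hB => (hf B hB).flip
  obtain ⟨b, hb, hba⟩ := exists_ne hC hm.ne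
  rcases hm.type hC hf hid with h | h
  · right
    intro x y
    by_contra hne
    have hcol := collapse hf (rfl : f x y = f x y)
    obtain ⟨z', a', hm', hsub⟩ := exists_minComp (H := H) (z := f x y) (a := y) hne
    rcases hm'.type hC hf hid with h' | h'
    · have h1 := h' x a' (C_self z' a')
      have h2 := hcol a' (hsub (C_self z' a'))
      have h3 : f x y ∈ C H (f x y) y := by
        have := hsub (C_self z' a')
        rw [← h1, h2] at this
        exact this
      exact not_mem_C hne h3
    · have h1 := h' a' (C_self z' a') a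
      have h2 := h a' a (C_self z a)
      have h3 := h' a' (C_self z' a') b
      have h4 := h a' b hb
      apply hba
      rw [← h4, h3, ← h1, h2]
  · left
    intro x y
    by_contra hne
    have hcol : ∀ x' ∈ C H (f x y) x, f x' y = f x y :=
      collapse hf' (x := y) (y := x) (rfl : (fun x y => f y x) y x = f x y)
    obtain ⟨z', a', hm', hsub⟩ := exists_minComp (H := H) (z := f x y) (a := x) hne
    rcases hm'.type hC hf hid with h' | h'
    · have h1 := h' a a' (C_self z' a')
      have h2 := h a (C_self z a) a'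
      have h3 := h' b a' (C_self z' a')
      have h4 := h b hb a'
      apply hba
      rw [← h4, h3, ← h1, h2]
    · have h1 := h' a' (C_self z' a') y
      have h2 := hcol a' (hsub (C_self z' a'))
      have h3 : f x y ∈ C H (f x y) x := by
        have := hsub (C_self z' a')
        rw [← h1, h2] at this
        exact this
      exact not_mem_C hne h3

end Pool.Agent.Helper10.OneBlock
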