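import Mathlib
import Pool.Agent.Helper10.OneBlock.Core

/-!
Classification of the families with property (P) all of whose members have at most one
non-singleton class.
-/

namespace Pool.Agent.Results.MP_51c8ca_al.OneBlockFamilies

open Pool.Agent.Helper10.OneBlock

/-- `f` preserves `θ` -/
def Preserves {E : Type*} (f : E → E → E) (θ : Setoid E) : Prop :=
  ∀ x x' y y' : E, θ x x' → θ y y' → θ (f x y) (f x' y')

/-- the projections are the only idempotent maps which preserve all members of `F` -/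
def PropertyP {E : Type*} (F : Set (Setoid E)) : Prop :=
  ∀ f : E → E → E, (∀ x, f x x = x) → (∀ θ ∈ F, Preserves f θ) →
    (∀ x y, f x y = x) ∨ ∀ x y, f x y = y

/-- `θ` has at most one non-singleton class -/
def OneBlock {E : Type*} (θ : Setoid E) : Prop :=
  ∀ x x' y y' : E, x ≠ x' → θ x x' → y ≠ y' → θ y y' → θ x y

/-- the join of the members of `F` for which `{z}` is a class -/
def away {E : Type*} (F : Set (Setoid E)) (z : E) : Setoid E :=
  sSup {θ ∈ F | ∀ t, θ z t → t = z}

/-- For `z ≠ a` let `C` be the class of `a` in `away F z`. The join of the members of `F` which do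
not identify all elements of `C ∪ {z}` is the total relation. -/
def Connected {E : Type*} (F : Set (Setoid E)) : Prop :=
  ∀ z a : E, z ≠ a → sSup {θ ∈ F | ∃ k, away F z a k ∧ ¬ θ z k} = ⊤

/-- An obstruction to property (P): a point `z` and disjoint non-empty sets `K`, `X` with `z ∉ K`,
such that every class of a member of `F` which meets `K` is contained in `K` or contains `z`, and
every member of `F` with a class which meets `X` and its complement identifies all elements of
`K ∪ {z}`. -/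
def Obstruction {E : Type*} (F : Set (Setoid E)) (z : E) (K X : Set E) : Prop :=
  K.Nonempty ∧ X.Nonempty ∧ z ∉ K ∧ Disjoint K X ∧
    (∀ θ ∈ F, ∀ y ∈ K, ∀ y' ∉ K, θ y y' → θ z y) ∧
    ∀ θ ∈ F, ∀ x ∈ X, ∀ x' ∉ X, θ x x' → ∀ y ∈ K, θ z y

section

variable {E : Type*}

theorem not_propertyP [Nontrivial E] {F : Set (Setoid E)} {z : E} {K X : Set E}
    (h : Obstruction F z K X) : ¬ PropertyP F := by
  classical
  obtain ⟨⟨k, hk⟩, ⟨x₀, hx₀⟩, hz, hKX, h1, h2⟩ := h
  intro hP
  let f : E → E → E := fun x y => if x ∈ X ∧ y ∈ K then z else y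
  have hid : ∀ x, f x x = x := by
    intro x
    have : ¬ (x ∈ X ∧ x ∈ K) := fun h => Set.disjoint_left.1 hKX h.2 h.1
    simp [f, this]
  have hpres : ∀ θ ∈ F, Preserves f θ := by
    intro θ hθ x x' y y' hx hy
    -- second variable
    have e1 : θ (f x y) (f x y') := by
      by_cases hxX : x ∈ X
      · by_cases hyK : y ∈ K
        · by_cases hyK' : y' ∈ K
          · simp [f, hxX, hyK, hyK']
          · simp only [f, hxX, hyK, hyK', and_true, and_false, if_true, if_false]
            exact θ.trans (h1 θ hθ y hyK y' hyK' hy) hy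
        · by_cases hyK' : y' ∈ K
          · simp only [f, hxX, hyK, hyK', and_true, and_false, if_true, if_false]
            exact θ.symm (θ.trans (h1 θ hθ y' hyK' y hyK (θ.symm hy)) (θ.symm hy))
          · simpa [f, hyK, hyK'] using hy
      · simpa [f, hxX] using hy
    -- first variable
    have e2 : θ (f x y') (f x' y') := by
      by_cases hyK' : y' ∈ K
      · by_cases hxX : x ∈ X
        · by_cases hxX' : x' ∈ X
          · simp [f, hxX, hxX', hyK']
          · simp only [f, hxX, hxX', hyK', and_true, and_self, if_true]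
            simp only [if_false]
            exact h2 θ hθ x hxX x' hxX' hx y' hyK'
        · by_cases hxX' : x' ∈ X
          · simp only [f, hxX, hxX', hyK', and_true, and_self, if_true]
            simp only [if_false]
            exact θ.symm (h2 θ hθ x' hxX' x hxX (θ.symm hx) y' hyK')
          · simp [f, hxX, hxX', hyK']
      · simp [f, hyK']
    exact θ.trans e1 e2
  rcases hP f hid hpres with h | h
  · obtain ⟨y, hy⟩ := exists_ne k
    have h3 := h k y
    have hkX : k ∉ X := Set.disjoint_left.1 hKX hk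
    simp only [f, hkX, false_and, if_false] at h3
    exact hy h3
  · have h3 := h x₀ k
    simp only [f, hx₀, hk, and_self, if_true] at h3
    exact hz (h3 ▸ hk)

/-- the non-singleton class -/
def blk (θ : Setoid E) : Set E := {x | ∃ y, y ≠ x ∧ θ x y}

theorem rel_iff {θ : Setoid E} (h : OneBlock θ) (x y : E) :
    θ x y ↔ x = y ∨ (x ∈ blk θ ∧ y ∈ blk θ) := by
  constructor
  · intro hxy
    by_cases hne : x = y
    · exact Or.inl hne
    · exact Or.inr ⟨⟨y, Ne.symm hne, hxy⟩, ⟨x, hne, θ.symm hxy⟩⟩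
  · rintro (rfl | ⟨⟨x', hx', hxx'⟩, ⟨y', hy', hyy'⟩⟩)
    · exact θ.refl x
    · exact h x x' y y' hx'.symm hxx' hy'.symm hyy'

theorem sSup_iff {F : Set (Setoid E)} (hF : ∀ θ ∈ F, OneBlock θ) (x y : E) :
    (sSup F : Setoid E) x y ↔
      Relation.ReflTransGen (fun x y => ∃ θ ∈ F, x ∈ blk θ ∧ y ∈ blk θ) x y := by
  rw [Setoid.sSup_eq_eqvGen]
  constructor
  · intro h
    change Relation.EqvGen _ x y at h
    induction h with
    | rel x y h =>
      obtain ⟨θ, hθ, hxy⟩ := h
      rcases (rel_iff (hF θ hθ) x y).1 hxy with rfl | h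
      · exact Relation.ReflTransGen.refl
      · exact Relation.ReflTransGen.single ⟨θ, hθ, h⟩
    | refl x => exact Relation.ReflTransGen.refl
    | symm x y _ ih =>
      clear * - ih
      induction ih with
      | refl => exact Relation.ReflTransGen.refl
      | tail _ huv ih =>
        obtain ⟨θ, hθ, hu, hv⟩ := huv
        exact Relation.ReflTransGen.head ⟨θ, hθ, hv, hu⟩ ih
    | trans x y z _ _ ih1 ih2 => exact ih1.trans ih2
  · intro h
    change Relation.EqvGen _ x y
    induction h with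
    | refl => exact Relation.EqvGen.refl _
    | tail _ huv ih =>
      obtain ⟨θ, hθ, hu, hv⟩ := huv
      exact Relation.EqvGen.trans _ _ _ ih
        (Relation.EqvGen.rel _ _ ⟨θ, hθ, (rel_iff (hF θ hθ) _ _).2 (Or.inr ⟨hu, hv⟩)⟩)

theorem away_iff {F : Set (Setoid E)} (hF : ∀ θ ∈ F, OneBlock θ) (z a k : E) :
    away F z a k ↔ k ∈ C (blk '' F) z a := by
  unfold away
  rw [sSup_iff (fun θ hθ => hF θ hθ.1)]
  have : (fun x y => ∃ θ ∈ {θ ∈ F | ∀ t, θ z t → t = z}, x ∈ blk θ ∧ y ∈ blk θ) =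
      R (blk '' F) z := by
    funext x y
    apply propext
    constructor
    · rintro ⟨θ, ⟨hθ, hz⟩, hx, hy⟩
      refine ⟨blk θ, ⟨θ, hθ, rfl⟩, ?_, hx, hy⟩
      rintro ⟨t, ht, hzt⟩
      exact ht (hz t hzt)
    · rintro ⟨_, ⟨θ, hθ, rfl⟩, hz, hx, hy⟩
      refine ⟨θ, ⟨hθ, fun t ht => ?_⟩, hx, hy⟩
      by_contra hne
      exact hz ⟨t, hne, ht⟩
  rw [this]
  rfl

theorem connected_iff {F : Set (Setoid E)} (hF : ∀ θ ∈ F, OneBlock θ) :
    Connected F ↔ Crit (blk '' F) := by
  unfold Connected Crit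
  refine forall_congr' fun z => forall_congr' fun a => forall_congr' fun hza => ?_
  have hrel : (fun x y => ∃ θ ∈ {θ ∈ F | ∃ k, away F z a k ∧ ¬ θ z k},
      x ∈ blk θ ∧ y ∈ blk θ) = S (blk '' F) (insert z (C (blk '' F) z a)) := by
    funext x y
    apply propext
    constructor
    · rintro ⟨θ, ⟨hθ, k, hk, hzk⟩, hx, hy⟩
      refine ⟨blk θ, ⟨θ, hθ, rfl⟩, fun hsub => ?_, hx, hy⟩
      rw [away_iff hF] at hk
      exact hzk ((rel_iff (hF θ hθ) z k).2 (Or.inr ⟨hsub (Set.mem_insert _ _),
        hsub (Set.mem_insert_of_mem _ hk)⟩))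
    · rintro ⟨_, ⟨θ, hθ, rfl⟩, hN, hx, hy⟩
      refine ⟨θ, ⟨hθ, ?_⟩, hx, hy⟩
      by_contra hcon
      push Not at hcon
      apply hN
      have key : ∀ k ∈ C (blk '' F) z a, z ∈ blk θ ∧ k ∈ blk θ := by
        intro k hk
        have h1 := hcon k ((away_iff hF z a k).2 hk)
        rcases (rel_iff (hF θ hθ) z k).1 h1 with h2 | h2
        · rw [← h2] at hk
          exact absurd hk (not_mem_C hza)
        · exact h2
      intro t ht
      rcases ht with rfl | ht
      · exact (key a (C_self _ a)).1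
      · exact (key t ht).2
  rw [Setoid.eq_top_iff]
  refine forall_congr' fun x => forall_congr' fun y => ?_
  rw [sSup_iff (fun θ hθ => hF θ hθ.1), hrel]

theorem propertyP_of_crit [Finite E] [Nontrivial E] {F : Set (Setoid E)}
    (hF : ∀ θ ∈ F, OneBlock θ) (hC : Crit (blk '' F)) : PropertyP F := by
  intro f hid hf
  refine core hC ?_ hid
  rintro _ ⟨θ, hθ, rfl⟩
  constructor
  · intro x x' y hx hx'
    exact (rel_iff (hF θ hθ) _ _).1
      (hf θ hθ x x' y y ((rel_iff (hF θ hθ) _ _).2 (Or.inr ⟨hx, hx'⟩)) (θ.refl y))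
  · intro x y y' hy hy'
    exact (rel_iff (hF θ hθ) _ _).1
      (hf θ hθ x x y y' (θ.refl x) ((rel_iff (hF θ hθ) _ _).2 (Or.inr ⟨hy, hy'⟩)))

theorem exists_obstruction {F : Set (Setoid E)} (hF : ∀ θ ∈ F, OneBlock θ)
    (hC : ¬ Crit (blk '' F)) : ∃ z K X, Obstruction F z K X := by
  unfold Crit at hC
  push Not at hC
  obtain ⟨z, a, hza, x, y, hxy⟩ := hC
  set K := C (blk '' F) z a with hK
  -- the component of `x`
  let X₁ : Set E := {v | Relation.ReflTransGen (S (blk '' F) (insert z K)) x v}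
  have hSsymm : ∀ u v, S (blk '' F) (insert z K) u v → S (blk '' F) (insert z K) v u := by
    rintro u v ⟨B, hB, hN, hu, hv⟩
    exact ⟨B, hB, hN, hv, hu⟩
  have hX₁ : ∀ u v, S (blk '' F) (insert z K) u v → (u ∈ X₁ ↔ v ∈ X₁) := fun u v h =>
    ⟨fun hu => Relation.ReflTransGen.tail hu h,
      fun hv => Relation.ReflTransGen.tail hv (hSsymm u v h)⟩
  have hK1 : ∀ u ∈ K, (u ∈ X₁ ↔ a ∈ X₁) := by
    intro u hu
    induction hu with
    | refl => exact Iff.rfl
    | @tail u v _ huv ih =>
      obtain ⟨B, hB, hz, hu, hv⟩ := huv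
      rw [← ih]
      exact (hX₁ u v ⟨B, hB, fun h => hz (h (Set.mem_insert _ _)), hu, hv⟩).symm
  have hKi : ∀ θ ∈ F, ∀ y ∈ K, ∀ y' ∉ K, θ y y' → θ z y := by
    intro θ hθ y hy y' hy' hyy'
    rcases (rel_iff (hF θ hθ) y y').1 hyy' with rfl | ⟨h1, h2⟩
    · exact absurd hy hy'
    · have hzb : z ∈ blk θ := by
        by_contra hzb
        exact hy' (C_block hy ⟨θ, hθ, rfl⟩ hzb h1 h2)
      exact (rel_iff (hF θ hθ) z y).2 (Or.inr ⟨hzb, h1⟩)
  have hXi : ∀ X : Set E, (∀ u v, S (blk '' F) (insert z K) u v → (u ∈ X ↔ v ∈ X)) →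
      ∀ θ ∈ F, ∀ x ∈ X, ∀ x' ∉ X, θ x x' → ∀ y ∈ K, θ z y := by
    intro X hX θ hθ x hx x' hx' hxx' y hy
    rcases (rel_iff (hF θ hθ) x x').1 hxx' with rfl | ⟨h1, h2⟩
    · exact absurd hx hx'
    · have hN : insert z K ⊆ blk θ := by
        by_contra hN
        exact hx' ((hX x x' ⟨blk θ, ⟨θ, hθ, rfl⟩, hN, h1, h2⟩).1 hx)
      exact (rel_iff (hF θ hθ) z y).2 (Or.inr ⟨hN (Set.mem_insert _ _),
        hN (Set.mem_insert_of_mem _ hy)⟩)
  by_cases ha : a ∈ X₁
  · refine ⟨z, K, X₁ᶜ, ⟨a, C_self _ a⟩, ⟨y, hxy⟩, not_mem_C hza, ?_, hKi, ?_⟩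
    · rw [Set.disjoint_left]
      intro u hu hu'
      exact hu' ((hK1 u hu).2 ha)
    · exact hXi X₁ᶜ fun u v h => by
        simp only [Set.mem_compl_iff]
        exact not_congr (hX₁ u v h)
  · refine ⟨z, K, X₁, ⟨a, C_self _ a⟩, ⟨x, Relation.ReflTransGen.refl⟩, not_mem_C hza, ?_, hKi,
      hXi X₁ hX₁⟩
    rw [Set.disjoint_left]
    intro u hu hu'
    exact ha ((hK1 u hu).1 hu')

end

/-- Let `E` be a finite set with at least two points. A family of equivalence relations on `E` with
an obstruction does not have property (P). If every member of the family has at most one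
non-singleton class, then property (P) holds if and only if there is no obstruction, and if and
only if `Connected F` holds. -/
theorem result {E : Type*} [Finite E] [Nontrivial E] (F : Set (Setoid E)) :
    (PropertyP F → ¬ ∃ z K X, Obstruction F z K X) ∧
      ((∀ θ ∈ F, OneBlock θ) →
        (PropertyP F ↔ ¬ ∃ z K X, Obstruction F z K X) ∧ (PropertyP F ↔ Connected F)) := by
  have h1 : PropertyP F → ¬ ∃ z K X, Obstruction F z K X := by
    rintro hP ⟨z, K, X, h⟩
    exact not_propertyP h hP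
  refine ⟨h1, fun hF => ?_⟩
  have h2 : (¬ ∃ z K X, Obstruction F z K X) → Crit (blk '' F) := by
    intro h
    by_contra hC
    exact h (exists_obstruction hF hC)
  have h3 : Crit (blk '' F) → PropertyP F := propertyP_of_crit hF
  refine ⟨⟨h1, fun h => h3 (h2 h)⟩, ?_⟩
  rw [connected_iff hF]
  exact ⟨fun h => h2 (h1 h), h3⟩

end Pool.Agent.Results.MP_51c8ca_al.OneBlockFamilies
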